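import Mathlib
import Pool.Agent.Helper40.LinWidth.Asymp
import Pool.Agent.Helper40.LinWidth.AsympUpper
import Pool.Agent.Helper65.LW.Final

/-!
# The order of the linear widths of the mixed Hölder–Nikol'skii class in the uniform norm

For every `d ≥ 1`, `r > 0` and every integer `l > r`,
`λ_m(H^r_∞, L_∞) ≍ m^(-r) (log m)^((d-1)(r+1))`.

The lower bound is new for `d ≥ 3`; the upper bound is the known one, proved here as well, so that
the two-sided estimate is unconditional.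
-/

namespace Pool.Agent.Results.MP_e48c23_an.LinearWidthOrder

open Pool.Agent.Helper40.LinWidth

theorem result (𝕜 : Type*) [RCLike 𝕜] (d : ℕ) (hd : 1 ≤ d) (r : ℝ) (hr : 0 < r)
    (l : ℕ) (hl : r < l) :
    ∃ c C : ℝ, 0 < c ∧ 0 < C ∧ ∀ m : ℕ, 2 ≤ m →
      ENNReal.ofReal (c * orderSeq d r m) ≤ linearWidth 𝕜 (mixedHolderClass 𝕜 d r l) m ∧
      linearWidth 𝕜 (mixedHolderClass 𝕜 d r l) m ≤ ENNReal.ofReal (C * orderSeq d r m) := by
  obtain ⟨c, hc, h1⟩ := linearWidth_lower 𝕜 d hd hr hl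
  obtain ⟨C, hC, h2⟩ := linearWidth_upper 𝕜 d hd hr
    (Pool.Agent.Helper65.LW.exists_good_operator 𝕜 d hd r hr l hl)
  exact ⟨c, C, hc, hC, fun m hm => ⟨h1 m hm, h2 m hm⟩⟩

end Pool.Agent.Results.MP_e48c23_an.LinearWidthOrder
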